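import Pool.Agent.helper75.PSA.Spec

/-! Row psa:PR1 (MP_2b41e9_nt): Parry powers of a Salem number -/

set_option autoImplicit false

open Polynomial Finset

noncomputable section

namespace Pool.Agent.PSA

theorem PR1 (hREC : REC_stmt) (hIND : IND_stmt) (hPWN : PWN_stmt) (hUKR : UKR_stmt) (hCTN : CTN_stmt) (hNE : NE_stmt)
    (hCRI : CRI_stmt) : PR1_stmt := by
  classical
  intro d
  by_cases hd : ∃ k : ℕ, 1 ≤ k ∧ d = 2 * k + 2
  swap
  · refine ⟨1, one_pos, fun β hβ hdeg => ?_⟩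
    obtain ⟨k, hk, hk', -⟩ := hREC β hβ
    exact absurd ⟨k, hk, by omega⟩ hd
  obtain ⟨k, hk, rfl⟩ := hd
  obtain ⟨U, hU⟩ : ∃ U : Set (Fin k → Circle), U = {w | Mid (1 / 4) w} := ⟨_, rfl⟩
  have hUo : IsOpen U := by
    have h1 : U = ⋂ i ∈ Finset.Ioo 0 (2 * k), ({w : Fin k → Circle | 1 / 4 < (QQ w).coeff i} ∩ {w | (QQ w).coeff i < 1}) := by
      rw [hU]
      ext w
      simp only [Set.mem_setOf_eq, Set.mem_iInter, Finset.mem_Ioo, Set.mem_inter_iff]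
      exact ⟨fun h i hi => h i hi.1 hi.2, fun h i h1 h2 => h i ⟨h1, h2⟩⟩
    rw [h1]
    exact isOpen_biInter_finset fun i _ =>
      (isOpen_lt continuous_const (hCTN k i)).inter (isOpen_lt (hCTN k i) continuous_const)
  have hUne : U.Nonempty := by
    obtain ⟨w, hw⟩ := hNE k hk
    refine ⟨w, ?_⟩
    rw [hU]
    intro i h1 h2
    rw [hw i h1 h2]
    norm_num
  obtain ⟨δ₀, hδ₀, hvis⟩ := hUKR k U hUo hUne
  refine ⟨δ₀ / 2, half_pos hδ₀, fun β hβ hdeg => ?_⟩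
  obtain ⟨k', hk', hdeg', w, hw⟩ := hREC β hβ
  have hkk : k' = k := by omega
  subst hkk
  have hind := hIND β k' w hβ hw
  obtain ⟨X₁, hX₁⟩ := hvis w hind
  have hβ1 : 1 < β := hβ.2.1
  obtain ⟨N₁, hN₁⟩ : ∃ N₁ : ℕ, 4 < β ^ N₁ := pow_unbounded_of_one_lt 4 hβ1
  have key : ∀ N : ℕ, N₁ ≤ N → (fun j => w j ^ N) ∈ U → Short (2 * k' + 2) (β ^ N) := by
    intro N hN hmem
    have h4 : 4 < β ^ N := lt_of_lt_of_le hN₁ (pow_le_pow_right₀ hβ1.le hN)
    obtain ⟨P', hP'⟩ := hPWN k' _ β w hw N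
    refine hCRI k' P' (β ^ N) _ hk (by linarith) hP' ?_
    have hinv : (β ^ N)⁻¹ < 1 / 4 := by
      rw [one_div]
      exact inv_strictAnti₀ (by norm_num) h4
    rw [hU] at hmem
    intro i h1 h2
    exact ⟨hinv.trans (hmem i h1 h2).1, (hmem i h1 h2).2⟩
  refine ⟨max X₁ ⌈2 * (N₁ : ℝ) / δ₀⌉₊, fun X hX s => ?_⟩
  have h1 := hX₁ X ((le_max_left _ _).trans hX) s
  have h2 : 2 * (N₁ : ℝ) / δ₀ ≤ X := (Nat.le_ceil _).trans (by exact_mod_cast (le_max_right _ _).trans hX)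
  rw [div_le_iff₀ hδ₀] at h2
  have hsub : (Finset.Ico s (s + X)).filter (fun N => (fun j => w j ^ N) ∈ U) ⊆
      (Finset.Ico s (s + X)).filter (fun N => Short (2 * k' + 2) (β ^ N)) ∪ Finset.range N₁ := by
    intro N hN
    rw [Finset.mem_filter] at hN
    rw [Finset.mem_union, Finset.mem_filter, Finset.mem_range]
    rcases Nat.lt_or_ge N N₁ with h | h
    · exact Or.inr h
    · exact Or.inl ⟨hN.1, key N h hN.2⟩
  have hcard := (Finset.card_le_card hsub).trans (Finset.card_union_le _ _)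
  rw [Finset.card_range] at hcard
  have hcard' : (((Finset.Ico s (s + X)).filter (fun N => (fun j => w j ^ N) ∈ U)).card : ℝ) ≤
      (((Finset.Ico s (s + X)).filter (fun N => Short (2 * k' + 2) (β ^ N))).card : ℝ) + N₁ := by
    exact_mod_cast hcard
  linarith

end Pool.Agent.PSA
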