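import Pool.Agent.helper75.PSA.Spec

/-! Row psa:PVC (MP_2b41e9_nt): the coefficients of the polynomials PV -/

set_option autoImplicit false

open Polynomial Finset

noncomputable section

namespace Pool.Agent.PSA

/-- the coefficients of the fixed part -/
def PVC_R (k : ℕ) (i : ℕ) : ℤ := (-1) ^ (2 * k + 2 - i) * ((2 * k + 2).choose i : ℤ) + if i = k + 1 then 2 else 0

/-- the low part -/
def PVC_T (k : ℕ) (v : ℕ → ℤ) : ℤ[X] :=
  2 * X ^ (k + 1) - 4 * ∑ i ∈ Finset.Icc 1 (2 * k + 1), C (v (min (i - 1) (2 * k + 1 - i))) * X ^ i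

theorem PVC_coeffT (k : ℕ) (v : ℕ → ℤ) (j : ℕ) : (PVC_T k v).coeff j =
    (if j = k + 1 then 2 else 0) - 4 * (if j ∈ Finset.Icc 1 (2 * k + 1) then v (min (j - 1) (2 * k + 1 - j)) else 0) := by
  unfold PVC_T
  have h2 : (2 * X ^ (k + 1) : ℤ[X]) = C 2 * X ^ (k + 1) := by simp
  have h4 : (4 * ∑ i ∈ Finset.Icc 1 (2 * k + 1), C (v (min (i - 1) (2 * k + 1 - i))) * X ^ i : ℤ[X]) =
      C 4 * ∑ i ∈ Finset.Icc 1 (2 * k + 1), C (v (min (i - 1) (2 * k + 1 - i))) * X ^ i := by simp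
  rw [h2, h4, coeff_sub, coeff_C_mul, coeff_C_mul, coeff_X_pow, finsetSum_coeff]
  have h5 : ∀ i ∈ Finset.Icc 1 (2 * k + 1), (C (v (min (i - 1) (2 * k + 1 - i))) * X ^ i : ℤ[X]).coeff j =
      if j = i then v (min (i - 1) (2 * k + 1 - i)) else 0 := by
    intro i _
    rw [coeff_C_mul, coeff_X_pow]
    split_ifs <;> simp
  rw [Finset.sum_congr rfl h5, Finset.sum_ite_eq]
  split_ifs <;> simp

theorem PVC_split (k : ℕ) (v : ℕ → ℤ) : PV k v = (X - C 1) ^ (2 * k + 2) + PVC_T k v := by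
  unfold PV PVC_T
  rw [C_1]
  ring

theorem PVC_pow (n i : ℕ) : ((X - C 1 : ℤ[X]) ^ n).coeff i = (-1) ^ (n - i) * (n.choose i : ℤ) := by
  have h : (X - C 1 : ℤ[X]) = X + C (-1) := by
    rw [C_neg]
    ring
  rw [h, coeff_X_add_C_pow]

theorem PVC : PVC_stmt := by
  intro k
  refine ⟨PVC_R k, ?_, ?_, ?_, ?_⟩
  · calc ∑ i ∈ range (2 * k + 3), |PVC_R k i|
        ≤ ∑ i ∈ range (2 * k + 3), (((2 * k + 2).choose i : ℤ) + if i = k + 1 then 2 else 0) := by
          refine Finset.sum_le_sum fun i _ => ?_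
          unfold PVC_R
          refine (abs_add_le _ _).trans ?_
          rw [abs_mul, abs_pow, abs_neg, abs_one, one_pow, one_mul, abs_of_nonneg (Int.natCast_nonneg _)]
          gcongr
          split_ifs <;> simp
      _ = ((∑ i ∈ range (2 * k + 2 + 1), (2 * k + 2).choose i : ℕ) : ℤ) + 2 := by
          rw [Finset.sum_add_distrib, Finset.sum_ite_eq' (range (2 * k + 3)) (k + 1) (fun _ => (2 : ℤ)),
            if_pos (by simp; omega)]
          push_cast
          rfl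
      _ = 4 ^ (k + 1) + 2 := by
          rw [Nat.sum_range_choose]
          push_cast
          rw [show (4 : ℤ) = 2 ^ 2 by norm_num, ← pow_mul]
          ring_nf
      _ ≤ 4 ^ (k + 1) + 2 := le_refl _
  · intro i hi
    unfold PVC_R
    have h1 : (2 * k + 2).choose (2 * k + 2 - i) = (2 * k + 2).choose i := Nat.choose_symm hi
    have h2 : ((-1 : ℤ)) ^ (2 * k + 2 - (2 * k + 2 - i)) = (-1) ^ (2 * k + 2 - i) := by
      rw [Nat.sub_sub_self hi]
      have h3 : (-1 : ℤ) ^ (2 * k + 2 - i) * (-1) ^ i = 1 := by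
        rw [← pow_add, Nat.sub_add_cancel hi, show 2 * k + 2 = 2 * (k + 1) by ring, pow_mul]
        norm_num
      have h4 : (-1 : ℤ) ^ i * (-1) ^ i = 1 := by
        rw [← mul_pow]
        norm_num
      calc (-1 : ℤ) ^ i = ((-1 : ℤ) ^ (2 * k + 2 - i) * (-1) ^ i) * (-1) ^ i := by rw [h3, one_mul]
        _ = (-1 : ℤ) ^ (2 * k + 2 - i) * ((-1) ^ i * (-1) ^ i) := by ring
        _ = _ := by rw [h4, mul_one]
    rw [h1, h2]
    have h5 : (2 * k + 2 - i = k + 1) ↔ (i = k + 1) := by omega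
    simp only [h5]
  · unfold PVC_R
    rw [Nat.choose_zero_right, if_neg (by omega), Nat.sub_zero, show 2 * k + 2 = 2 * (k + 1) by ring, pow_mul]
    norm_num
  · intro v
    have hp : ((X - C 1 : ℤ[X]) ^ (2 * k + 2)).Monic := (monic_X_sub_C 1).pow _
    have hpd : ((X - C 1 : ℤ[X]) ^ (2 * k + 2)).natDegree = 2 * k + 2 := by
      rw [(monic_X_sub_C (1 : ℤ)).natDegree_pow, natDegree_X_sub_C, mul_one]
    have hdeg : ((X - C 1 : ℤ[X]) ^ (2 * k + 2)).degree = ((2 * k + 2 : ℕ) : WithBot ℕ) := by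
      rw [degree_eq_natDegree hp.ne_zero, hpd]
    have hT : (PVC_T k v).degree < ((X - C 1 : ℤ[X]) ^ (2 * k + 2)).degree := by
      rw [hdeg, degree_lt_iff_coeff_zero]
      intro m hm
      rw [PVC_coeffT, if_neg (by omega), if_neg (by rw [Finset.mem_Icc]; omega)]
      ring
    have hmon : (PV k v).Monic := by
      rw [PVC_split]
      exact hp.add_of_left hT
    have hnat : (PV k v).natDegree = 2 * k + 2 := by
      have h1 : (PV k v).degree = ((2 * k + 2 : ℕ) : WithBot ℕ) := by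
        rw [PVC_split, degree_add_eq_left_of_degree_lt hT, hdeg]
      exact natDegree_eq_of_degree_eq_some h1
    refine ⟨hmon, hnat, ?_, ?_⟩
    · intro i h1 h2
      rw [PVC_split, coeff_add, PVC_pow, PVC_coeffT, if_pos (Finset.mem_Icc.2 ⟨h1, h2⟩)]
      unfold PVC_R
      ring
    · rw [PVC_split, coeff_add, PVC_pow, PVC_coeffT, if_neg (by omega), if_neg (by rw [Finset.mem_Icc]; omega),
        Nat.choose_zero_right, Nat.sub_zero, show 2 * k + 2 = 2 * (k + 1) by ring, pow_mul]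
      norm_num

end Pool.Agent.PSA
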